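import Mathlib
import Pool.Agent.Helper945.PDef
import Pool.Agent.Helper945.InfLow
import Pool.Agent.Helper945.ExP

set_option autoImplicit false

open Filter Topology MeasureTheory
open scoped NNReal

namespace Pool.Agent.Y999.PRange

open Pool.Agent.Helper945.PDef Pool.Agent.Helper945

/-- Change of the time scale. -/
lemma scale {p : ℝ≥0 → ℝ} (h : IsStd p) (c : ℝ≥0) : IsStd (fun t => p (c * t)) := by
  have h0 := InfLow.tendsto_zero h
  obtain ⟨⟨hp0, h1, Ω, mΩ, P, E, hP, hE, hEp, hreg⟩, -⟩ := h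
  constructor
  · refine ⟨by simpa using hp0, fun t => h1 _, Ω, mΩ, P, fun t => E (c * t), hP,
      fun t => hE _, fun t => hEp _, ?_⟩
    intro n t ht
    have := hreg n (fun i => c * t i) (fun i j hij => by
      have := ht hij
      show c * t i ≤ c * t j
      gcongr)
    simp only [← mul_tsub] at this
    exact this
  · have h1 : Tendsto (fun t : ℝ≥0 => c * t) (𝓝 0) (𝓝 0) := by
      have : Continuous (fun t : ℝ≥0 => c * t) := by fun_prop
      have := this.tendsto 0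
      rwa [mul_zero] at this
    exact (h0.comp h1).mono_left nhdsWithin_le_nhds

lemma pow_le {p : ℝ≥0 → ℝ} (hp : IsPFunction p) (s : ℝ≥0) (n : ℕ) :
    p s ^ n ≤ p (n * s) := by
  induction n with
  | zero => simp [hp.1]
  | succ n ih =>
    have h1 := Skel.supermul hp (n * s) s
    have h2 : ((n : ℝ≥0) * s + s) = ((n + 1 : ℕ) : ℝ≥0) * s := by push_cast; ring
    rw [h2] at h1
    rw [pow_succ]
    exact (mul_le_mul_of_nonneg_right ih (hp.2.1 s).1).trans h1

/-- A standard p-function is bounded away from zero on a bounded interval. -/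
lemma bounded_below {p : ℝ≥0 → ℝ} (hp : IsStd p) (T : ℝ≥0) :
    ∃ c > 0, ∀ t ≤ T, c ≤ p t := by
  have h0 := InfLow.tendsto_zero hp
  have h1 : ∀ᶠ t in 𝓝 (0 : ℝ≥0), 1 / 2 < p t := h0.eventually (lt_mem_nhds (by norm_num))
  have h2 : Tendsto (fun n : ℕ => T * (1 / ((n : ℝ≥0) + 1))) atTop (𝓝 0) := by
    have := (tendsto_one_div_add_atTop_nhds_zero_nat (𝕜 := ℝ≥0)).const_mul T
    simpa using this
  obtain ⟨e, he, hball⟩ := Metric.eventually_nhds_iff.1 h1
  obtain ⟨n, hn⟩ := (h2.eventually (gt_mem_nhds (Real.toNNReal_pos.2 he))).exists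
  refine ⟨(1 / 2) ^ (n + 1), by positivity, fun t ht => ?_⟩
  have h3 := pow_le hp.1 (t * (1 / ((n : ℝ≥0) + 1))) (n + 1)
  have h4 : ((n + 1 : ℕ) : ℝ≥0) * (t * (1 / ((n : ℝ≥0) + 1))) = t := by
    push_cast
    field_simp
  rw [h4] at h3
  refine le_trans ?_ h3
  have h5 : t * (1 / ((n : ℝ≥0) + 1)) < Real.toNNReal e := by
    refine lt_of_le_of_lt ?_ hn
    gcongr
  have h6 := hball (y := t * (1 / ((n : ℝ≥0) + 1))) (by
    rw [NNReal.dist_eq, NNReal.coe_zero, sub_zero, abs_of_nonneg (NNReal.coe_nonneg _)]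
    have : ((t * (1 / ((n : ℝ≥0) + 1)) : ℝ≥0) : ℝ) < (Real.toNNReal e : ℝ) := by exact_mod_cast h5
    rwa [Real.coe_toNNReal e he.le] at this)
  exact pow_le_pow_left₀ (by norm_num) h6.le _

/-- On `[1, 1 + s]` the example increases. -/
lemma pex_ge {lam : ℝ} (hl : 0 < lam) (t : ℝ) (h1 : 1 ≤ t)
    (h2 : lam * (t - 1) ≤ 1 - Real.exp (-lam)) (h3 : t ≤ 2) :
    Real.exp (-lam) ≤ ExLow.pex lam 1 t := by
  rw [ExP.pex_between hl t h1 h3]
  set h := lam * (t - 1) with hh
  have hh0 : 0 ≤ h := mul_nonneg hl.le (by linarith)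
  have e1 : Real.exp (-(lam * t)) = Real.exp (-lam) * Real.exp (-h) := by
    rw [← Real.exp_add]; congr 1; rw [hh]; ring
  rw [e1]
  have e2 : Real.exp (-h) ≥ 1 - h := by
    have := Real.add_one_le_exp (-h); linarith
  have e3 : 0 < Real.exp (-lam) := Real.exp_pos _
  have e4 : 0 < Real.exp (-h) := Real.exp_pos _
  -- e^{-h} (v + h) ≥ v  when  0 ≤ h ≤ 1 - v
  have e5 : Real.exp (-lam) * Real.exp h ≤ Real.exp (-lam) + h := by
    -- convexity of exp : e^h ≤ 1 + h / v * ... on [0, 1 - v]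
    have hx : Real.exp h ≤ 1 + h / Real.exp (-lam) := by
      have hlt : h < 1 := by linarith
      have h6 : Real.exp h ≤ 1 / (1 - h) := by
        have h7 := Real.add_one_le_exp (-h)
        rw [le_div_iff₀ (by linarith)]
        have h8 : Real.exp h * Real.exp (-h) = 1 := by rw [← Real.exp_add]; simp
        nlinarith [Real.exp_pos h]
      refine h6.trans ?_
      have h9 : Real.exp (-lam) ≤ 1 - h := by linarith
      have hne : (1 - h) ≠ 0 := by linarith
      have h10 : 1 / (1 - h) = 1 + h / (1 - h) := by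
        rw [eq_comm, eq_div_iff hne]
        field_simp
        ring
      rw [h10]
      gcongr
    calc Real.exp (-lam) * Real.exp h ≤ Real.exp (-lam) * (1 + h / Real.exp (-lam)) := by gcongr
      _ = Real.exp (-lam) + h := by field_simp
  have e6 : Real.exp (-h) * (Real.exp (-lam) * Real.exp h) ≤ Real.exp (-h) * (Real.exp (-lam) + h) :=
    mul_le_mul_of_nonneg_left e5 e4.le
  have e7 : Real.exp (-h) * (Real.exp (-lam) * Real.exp h) = Real.exp (-lam) := by
    have h8 : Real.exp h * Real.exp (-h) = 1 := by rw [← Real.exp_add]; simp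
    calc Real.exp (-h) * (Real.exp (-lam) * Real.exp h)
        = Real.exp (-lam) * (Real.exp h * Real.exp (-h)) := by ring
      _ = Real.exp (-lam) := by rw [h8, mul_one]
  have e8 : Real.exp (-(lam * (t - 1))) = Real.exp (-h) := by rw [hh]
  rw [e8]
  linarith

/-- The extremal example, with its minimum. -/
theorem exists_min {v M : ℝ} (hv : 0 < v) (h1 : v ≤ M) (hM : M ≤ 1) (h2 : 1 + Real.log M ≤ v) :
    ∃ p : ℝ≥0 → ℝ, IsStd p ∧ p 1 = M ∧ IsLeast (p '' Set.Icc 0 1) v := by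
  have hM0 : 0 < M := lt_of_lt_of_le hv h1
  rcases eq_or_lt_of_le (h1.trans hM) with hv1 | hv1
  · have hM1 : M = 1 := le_antisymm hM (hv1 ▸ h1)
    subst hM1
    subst hv1
    exact ⟨_, ExP.isStd_one, rfl, ⟨0, ⟨le_rfl, zero_le_one⟩, rfl⟩, by
      rintro _ ⟨t, -, rfl⟩; exact le_rfl⟩
  obtain ⟨lam, hl, rfl⟩ : ∃ lam : ℝ, 0 < lam ∧ v = Real.exp (-lam) :=
    ⟨-Real.log v, by have := Real.log_neg hv hv1; linarith, by rw [neg_neg, Real.exp_log hv]⟩
  have h2' : M ≤ Real.exp (-(1 - Real.exp (-lam))) := by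
    rw [← Real.log_le_iff_le_exp hM0]; linarith
  set s : ℝ := (1 - Real.exp (-lam)) / lam with hs
  have hs0 : 0 ≤ s := div_nonneg (by linarith) hl.le
  have hs1 : s ≤ 1 := by
    rw [hs, div_le_one hl]
    have := Real.add_one_le_exp (-lam)
    linarith
  have hls : lam * s = 1 - Real.exp (-lam) := by rw [hs]; field_simp
  have hval1 : ExLow.pex lam 1 1 = Real.exp (-lam) := by
    rw [ExLow.pex_small hl one_pos 1 zero_le_one le_rfl, mul_one]
  have hval2 : ExLow.pex lam 1 (1 + s) = Real.exp (-(1 - Real.exp (-lam))) := by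
    rw [ExP.pex_between hl (1 + s) (by linarith) (by linarith), add_sub_cancel_left, hls]
    have h3 : Real.exp (-(lam * (1 + s))) = Real.exp (-lam) * Real.exp (-(1 - Real.exp (-lam))) := by
      rw [← Real.exp_add, ← hls]
      congr 1
      ring
    rw [h3]
    ring
  have hivt : M ∈ ExLow.pex lam 1 '' Set.Icc 1 (1 + s) := by
    refine intermediate_value_Icc (by linarith)
      ((ExLow.pex_continuousOn hl one_pos).mono fun t ht => ?_) ?_
    · have := ht.1
      show (0:ℝ) ≤ t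
      linarith
    · rw [hval1, hval2]
      exact ⟨h1, h2'⟩
  obtain ⟨T, ⟨hT1, hT2⟩, hT⟩ := hivt
  have hT0 : 0 ≤ T := by linarith
  lift T to ℝ≥0 using hT0
  refine ⟨fun t => ExLow.pex lam 1 ((T : ℝ) * t), ExP.pex_scaled hl T, ?_, ⟨1 / T, ?_, ?_⟩, ?_⟩
  · simp only [NNReal.coe_one, mul_one]
    exact hT
  · refine ⟨bot_le, ?_⟩
    rw [div_le_one (by exact_mod_cast lt_of_lt_of_le one_pos hT1)]
    exact_mod_cast hT1
  · simp only [NNReal.coe_div, NNReal.coe_one]
    rw [mul_one_div_cancel (by linarith)]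
    exact hval1
  · rintro _ ⟨t, ht, rfl⟩
    have ht1 : (t : ℝ) ≤ 1 := by exact_mod_cast ht.2
    have ht0 : (0 : ℝ) ≤ t := t.2
    show Real.exp (-lam) ≤ ExLow.pex lam 1 ((T : ℝ) * t)
    rcases le_total ((T : ℝ) * t) 1 with h | h
    · rw [ExLow.pex_small hl one_pos _ (by positivity) h]
      apply Real.exp_le_exp.2
      nlinarith
    · have h5 : (T : ℝ) * t ≤ 1 + s := by nlinarith
      refine pex_ge hl _ h ?_ (by linarith)
      rw [← hls]
      exact mul_le_mul_of_nonneg_left (by linarith) hl.le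

/-- The exact range of the minimum. -/
theorem range_iff (T : ℝ≥0) (hT : 0 < T) (M m : ℝ) (hM0 : 0 < M) (hM1 : M ≤ 1) :
    ((∃ p : ℝ≥0 → ℝ, IsStd p ∧ p T = M ∧ IsGLB (p '' Set.Icc 0 T) m) →
      0 < m ∧ m ≤ M ∧ 1 + Real.log M ≤ m) ∧
    (0 < m ∧ m ≤ M ∧ 1 + Real.log M ≤ m →
      ∃ p : ℝ≥0 → ℝ, IsStd p ∧ p T = M ∧ IsLeast (p '' Set.Icc 0 T) m) := by
  constructor
  · rintro ⟨p, hp, hpT, hm⟩
    obtain ⟨c, hc, hcp⟩ := bounded_below hp T
    have hT1 : p (T * 1) = M := by rw [mul_one]; exact hpT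
    refine ⟨lt_of_lt_of_le hc (hm.2 ?_), ?_, hm.2 ?_⟩
    · rintro _ ⟨t, ht, rfl⟩
      exact hcp t ht.2
    · exact hm.1 ⟨T, ⟨bot_le, le_rfl⟩, hpT⟩
    · rintro _ ⟨t, ht, rfl⟩
      have h1 := InfLow.log_le (scale hp T) (by show 0 < p (T * 1); rw [hT1]; exact hM0) (t / T)
        (by rw [div_le_one hT]; exact ht.2)
      have h2 : T * (t / T) = t := mul_div_cancel₀ _ hT.ne'
      simp only [hT1] at h1
      rw [h2] at h1
      exact h1
  · rintro ⟨h1, h2, h3⟩
    obtain ⟨p, hp, hp1, hpm⟩ := exists_min h1 h2 hM1 h3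
    have e1 : T⁻¹ * T = 1 := inv_mul_cancel₀ hT.ne'
    refine ⟨fun t => p (T⁻¹ * t), scale hp T⁻¹, by show p (T⁻¹ * T) = M; rw [e1, hp1], ?_⟩
    have h4 : (fun t => p (T⁻¹ * t)) '' Set.Icc 0 T = p '' Set.Icc 0 1 := by
      ext x
      constructor
      · rintro ⟨t, ht, rfl⟩
        exact ⟨T⁻¹ * t, ⟨bot_le, by rw [← e1]; gcongr; exact ht.2⟩, rfl⟩
      · rintro ⟨t, ht, rfl⟩
        refine ⟨T * t, ⟨bot_le, mul_le_of_le_one_right bot_le ht.2⟩, ?_⟩
        show p (T⁻¹ * (T * t)) = p t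
        rw [← mul_assoc, e1, one_mul]
    rw [h4]
    exact hpm

end Pool.Agent.Y999.PRange
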