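import Mathlib
import Pool.Agent.Results.MP_70d5b9_an.TipSupremum

set_option autoImplicit false

open Set Filter Topology Complex Metric

namespace Pool.Agent.Y999.TipRange

open Pool.Agent.Results.MP_70d5b9_an.TipSupremum

theorem Rf_gt' {ψ θ : ℝ} (hψ0 : -(Real.pi / 2) < ψ) (hψ1 : ψ < Real.pi / 2) (h1 : -Real.pi < θ)
    (h2 : θ < Real.pi) (hne : θ ≠ -(2 * ψ)) : Rf ψ (-(2 * ψ)) < Rf ψ θ := by
  have hcψ : 0 < Real.cos ψ := Real.cos_pos_of_mem_Ioo ⟨by linarith, hψ1⟩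
  have hfac : ∀ x, Real.sin ψ + Real.cos ψ * Real.tan (x / 2) =
      Real.cos ψ * (Real.tan (x / 2) - Real.tan (-ψ)) := by
    intro x
    rw [Real.tan_neg, Real.tan_eq_sin_div_cos ψ]
    field_simp
    ring
  rcases lt_or_gt_of_ne hne with h | h
  · have hanti : StrictAntiOn (Rf ψ) (Ioc (-Real.pi) (-(2 * ψ))) := by
      apply strictAntiOn_of_deriv_neg (convex_Ioc _ _)
      · intro x hx
        exact (Rf_hasDerivAt hx.1 (by linarith [hx.2])).continuousAt.continuousWithinAt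
      · intro x hx
        rw [interior_Ioc] at hx
        rw [(Rf_hasDerivAt hx.1 (by linarith [hx.2])).deriv, hfac]
        have := Real.strictMonoOn_tan (a := x / 2) (b := -ψ) ⟨by linarith [hx.1], by linarith [hx.2]⟩
          ⟨by linarith, by linarith⟩ (by linarith [hx.2])
        nlinarith
    exact hanti ⟨h1, h.le⟩ ⟨by linarith, le_rfl⟩ h
  · have hmono : StrictMonoOn (Rf ψ) (Ico (-(2 * ψ)) Real.pi) := by
      apply strictMonoOn_of_deriv_pos (convex_Ico _ _)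
      · intro x hx
        exact (Rf_hasDerivAt (by linarith [hx.1]) hx.2).continuousAt.continuousWithinAt
      · intro x hx
        rw [interior_Ico] at hx
        rw [(Rf_hasDerivAt (by linarith [hx.1]) hx.2).deriv, hfac]
        have := Real.strictMonoOn_tan (a := -ψ) (b := x / 2) ⟨by linarith, by linarith⟩
          ⟨by linarith [hx.1], by linarith [hx.2]⟩ (by linarith [hx.1])
        nlinarith
    exact hmono ⟨le_rfl, by linarith⟩ ⟨h.le, h2⟩ h


theorem Rf_surj' {ψ : ℝ} (hψ0 : -(Real.pi / 2) < ψ) (hψ1 : ψ < Real.pi / 2) {s : ℝ}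
    (hs : Rf ψ (-(2 * ψ)) ≤ s) : ∃ θ : ℝ, -Real.pi < θ ∧ θ < Real.pi ∧ Rf ψ θ = s := by
  have hcψ : 0 < Real.cos ψ := Real.cos_pos_of_mem_Ioo ⟨by linarith, hψ1⟩
  set B : ℝ := (|s| + Real.pi) / (2 * Real.cos ψ) with hB
  have hB0 : 0 ≤ B := by have := Real.pi_pos; positivity
  set y : ℝ := Real.exp (-B) / 2 with hy
  have hy0 : 0 < y := by positivity
  have hy1 : y ≤ 1 / 2 := by
    have : Real.exp (-B) ≤ 1 := Real.exp_le_one_iff.mpr (by linarith)
    rw [hy]; linarith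
  set θ₁ : ℝ := 2 * Real.arccos y with hθ₁
  have ha0 : 0 ≤ Real.arccos y := Real.arccos_nonneg y
  have ha1 : Real.arccos y < Real.pi / 2 := by
    rw [Real.arccos_lt_pi_div_two]; exact hy0
  have hθ0 : 0 ≤ θ₁ := by positivity
  have hθπ : θ₁ < Real.pi := by rw [hθ₁]; linarith
  have hval : s ≤ Rf ψ θ₁ := by
    unfold Rf
    rw [hθ₁, mul_div_cancel_left₀ _ two_ne_zero, Real.cos_arccos (by linarith) (by linarith), hy,
      mul_div_cancel₀ _ two_ne_zero, Real.log_exp]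
    have h1 : 2 * Real.cos ψ * -B = -(|s| + Real.pi) := by
      rw [hB]; field_simp
    rw [h1]
    have h2 : -Real.pi ≤ 2 * Real.arccos y * Real.sin ψ := by
      have h3 := Real.neg_one_le_sin ψ
      nlinarith [Real.pi_pos]
    linarith [le_abs_self s]
  have hcont : ContinuousOn (Rf ψ) (uIcc (-(2 * ψ)) θ₁) := by
    intro x hx
    have hx1 : -Real.pi < x := lt_of_lt_of_le (lt_min (by linarith) (by linarith)) hx.1
    have hx2 : x < Real.pi := lt_of_le_of_lt hx.2 (max_lt (by linarith) hθπ)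
    exact (Rf_hasDerivAt hx1 hx2).continuousAt.continuousWithinAt
  obtain ⟨θ, hθ, hθs⟩ := intermediate_value_uIcc hcont
    (show s ∈ uIcc (Rf ψ (-(2 * ψ))) (Rf ψ θ₁) from ⟨(min_le_left _ _).trans hs,
      hval.trans (le_max_right _ _)⟩)
  exact ⟨θ, lt_of_lt_of_le (lt_min (by linarith) (by linarith)) hθ.1,
    lt_of_le_of_lt hθ.2 (max_lt (by linarith) hθπ), hθs⟩

theorem γsp_angle' {ψ : ℝ} (hψ0 : -(Real.pi / 2) < ψ) (hψ1 : ψ < Real.pi / 2) {t : ℝ} (ht : 0 ≤ t) {u : ℂ}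
    (hu : IsTangentDir (γsp ψ) t u) : InnerProductGeometry.angle u (γsp ψ t) ≤ |ψ| := by
  have hγ : γsp ψ t ≠ 0 := exp_ne_zero _
  have hd : exp (ψ * I) * γsp ψ t ≠ 0 := mul_ne_zero (exp_ne_zero _) hγ
  have h1 := isTangentDir_of_hasDerivAt hd (γsp_hasDerivAt ψ t)
  have hne : (𝓝[Ici 0 \ {t}] t).NeBot := by
    have h2 : 𝓝[>] t ≤ 𝓝[Ici 0 \ {t}] t := by
      apply nhdsWithin_mono
      intro x hx
      exact ⟨ht.trans (le_of_lt hx), ne_of_gt hx⟩
    exact NeBot.mono inferInstance h2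
  have h3 : u = ‖exp (ψ * I) * γsp ψ t‖⁻¹ • (exp (ψ * I) * γsp ψ t) := tendsto_nhds_unique hu h1
  rw [h3, InnerProductGeometry.angle_smul_left_of_pos _ _ (by positivity), angle_eq_abs_arg hd hγ,
    mul_div_assoc, div_self hγ, mul_one, exp_mul_I, arg_cos_add_sin_mul_I]
  exact ⟨by linarith [Real.pi_pos], by linarith [Real.pi_pos]⟩
theorem circle_mem_slit' {ψ : ℝ} (hψ0 : -(Real.pi / 2) < ψ) (hψ1 : ψ < Real.pi / 2) {z : ℂ}
    (hz : z ∈ sphere (0 : ℂ) 1) (hz1 : z ≠ -1) : fsp ψ z ∈ γsp ψ '' Ici 0 := by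
  obtain ⟨h1, h2, h3⟩ := exists_angle hz hz1
  rw [h3, fsp_circle h1 h2]
  have h4 : Rf ψ (-(2 * ψ)) ≤ Rf ψ (arg z) := by
    rcases eq_or_ne (arg z) (-(2 * ψ)) with h | h
    · rw [h]
    · exact (Rf_gt' hψ0 hψ1 h1 h2 h).le
  refine ⟨Rf ψ (arg z) - Rf ψ (-(2 * ψ)), sub_nonneg.mpr h4, ?_⟩
  unfold γsp
  rw [add_sub_cancel]

theorem slit_mem_circle' {ψ : ℝ} (hψ0 : -(Real.pi / 2) < ψ) (hψ1 : ψ < Real.pi / 2) {t : ℝ} (ht : 0 ≤ t) :
    ∃ z ∈ sphere (0 : ℂ) 1, z ≠ -1 ∧ fsp ψ z = γsp ψ t := by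
  obtain ⟨θ, h1, h2, h3⟩ := Rf_surj' hψ0 hψ1 (s := Rf ψ (-(2 * ψ)) + t) (by linarith)
  obtain ⟨a, b, -⟩ := exp_mul_I_mem h1 h2
  refine ⟨exp (θ * I), a, b, ?_⟩
  rw [fsp_circle h1 h2, h3]
  rfl

theorem fsp_compl' {ψ : ℝ} (hψ0 : -(Real.pi / 2) < ψ) (hψ1 : ψ < Real.pi / 2) :
    (fsp ψ '' ball 0 1)ᶜ = γsp ψ '' Ici 0 := by
  have hψ : 0 < Real.cos ψ := Real.cos_pos_of_mem_Ioo ⟨by linarith, hψ1⟩
  have hS := fsp_classS hψ
  apply Subset.antisymm
  · intro w hw
    by_contra hwΓ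
    apply hw
    let p : ℝ → ℂ := fun s => w * exp (-(exp (ψ * I) * s))
    have hpc : Continuous p := by
      simp only [p]; fun_prop
    have hpΓ : ∀ s ∈ Ici (0 : ℝ), p s ∉ γsp ψ '' Ici 0 := by
      rintro s hs ⟨t, ht, hts⟩
      apply hwΓ
      refine ⟨t + s, mem_Ici.mpr (add_nonneg ht hs), ?_⟩
      have h1 : w = p s * exp (exp (ψ * I) * s) := by
        simp only [p]
        rw [mul_assoc, ← exp_add]; simp
      rw [h1, ← hts]
      unfold γsp
      rw [← exp_add]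
      congr 1
      push_cast; ring
    have hopen := fsp_image_open hψ
    have hcl : closure (fsp ψ '' ball 0 1) ⊆ fsp ψ '' ball 0 1 ∪ γsp ψ '' Ici 0 := by
      intro x hx
      have hcomp : IsClosed (Fsp ψ '' closedBall 0 1) :=
        ((isCompact_closedBall (0 : ℂ) 1).image_of_continuousOn (Fsp_continuousOn hψ)).isClosed
      have h1 : closure (fsp ψ '' ball 0 1) ⊆
          ((↑) : ℂ → OnePoint ℂ) ⁻¹' (Fsp ψ '' closedBall 0 1) := by
        apply closure_minimal _ (hcomp.preimage OnePoint.continuous_coe)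
        rintro _ ⟨z, hz, rfl⟩
        refine ⟨z, ball_subset_closedBall hz, ?_⟩
        have : z ≠ -1 := (mem_D_iff.mp (ball_subset_D hz)).2
        simp [Fsp, this]
      obtain ⟨z, hz, hzx⟩ := h1 hx
      rcases eq_or_ne z (-1) with rfl | hne
      · exfalso
        have : Fsp ψ (-1) = OnePoint.infty := by simp [Fsp]
        rw [this] at hzx
        exact OnePoint.infty_ne_coe x hzx
      · have h2 : Fsp ψ z = ((fsp ψ z : ℂ) : OnePoint ℂ) := by simp [Fsp, hne]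
        rw [h2] at hzx
        have h3 := OnePoint.coe_injective hzx
        rw [mem_closedBall_zero_iff] at hz
        rcases hz.lt_or_eq with h4 | h4
        · left
          exact ⟨z, by simpa using h4, h3⟩
        · right
          rw [← h3]
          exact circle_mem_slit' hψ0 hψ1 (by simpa using h4) hne
    have hpre : IsPreconnected (p '' Ici 0) := isPreconnected_Ici.image p hpc.continuousOn
    have hne : (p '' Ici 0 ∩ fsp ψ '' ball 0 1).Nonempty := by
      have h0 : (0 : ℂ) ∈ fsp ψ '' ball 0 1 := ⟨0, mem_ball_self one_pos, hS.map_zero⟩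
      have hlim : Tendsto p atTop (𝓝 0) := by
        rw [tendsto_zero_iff_norm_tendsto_zero]
        have h1 : ∀ s : ℝ, ‖p s‖ = ‖w‖ * Real.exp (-(Real.cos ψ * s)) := by
          intro s
          simp only [p]
          rw [norm_mul, norm_exp, neg_re, re_mul_ofReal, exp_ofReal_mul_I_re]
        simp_rw [h1]
        have h2 : Tendsto (fun s : ℝ => Real.exp (-(Real.cos ψ * s))) atTop (𝓝 0) :=
          Real.tendsto_exp_neg_atTop_nhds_zero.comp (tendsto_id.const_mul_atTop hψ)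
        simpa using h2.const_mul ‖w‖
      have h1 := (hlim.eventually (hopen.mem_nhds h0)).and (eventually_ge_atTop 0)
      obtain ⟨s, hs1, hs2⟩ := h1.exists
      exact ⟨p s, mem_image_of_mem p hs2, hs1⟩
    have hsub := hpre.subset_of_closure_inter_subset hopen hne (by
      rintro x ⟨hx1, s, hs, rfl⟩
      rcases hcl hx1 with h | h
      · exact h
      · exact absurd h (hpΓ s hs))
    have hp0 : p 0 = w := by simp [p]
    rw [← hp0]
    exact hsub (mem_image_of_mem p self_mem_Ici)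
  · rintro _ ⟨t, ht, rfl⟩
    obtain ⟨z, hz, hz1, hzt⟩ := slit_mem_circle' hψ0 hψ1 ht
    rw [← hzt]
    apply notMem_image_of_boundary hS.diff hS.inj hz
    have hzD : z ∈ D := mem_D_iff.mpr ⟨(mem_sphere_zero_iff_norm.mp hz).le, hz1⟩
    exact (fsp_differentiableAt hzD).continuousAt.tendsto.mono_left nhdsWithin_le_nhds

theorem fsp_hasTipAt' {ψ : ℝ} (hψ0 : -(Real.pi / 2) < ψ) (hψ1 : ψ < Real.pi / 2) :
    HasTipAt (fsp ψ) (γsp ψ 0) (-(2 * ψ)) := by
  have hψ : 0 < Real.cos ψ := Real.cos_pos_of_mem_Ioo ⟨by linarith, hψ1⟩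
  refine ⟨Fsp ψ, Fsp_continuousOn hψ, ?_, ?_, ?_⟩
  · intro z hz
    have : z ≠ -1 := (mem_D_iff.mp (ball_subset_D hz)).2
    simp [Fsp, this]
  · intro z _
    by_cases h : z = -1
    · simp [Fsp, h]
    · simp [Fsp, h]
  · intro z hz
    have hγ0 : γsp ψ 0 = exp (exp (ψ * I) * ((Rf ψ (-(2 * ψ)) : ℝ) : ℂ)) := by
      unfold γsp; rw [add_zero]
    obtain ⟨a, b, -⟩ := exp_mul_I_mem (θ := -(2 * ψ)) (by linarith) (by linarith)
    constructor
    · intro h
      have hne : z ≠ -1 := by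
        rintro rfl
        have : Fsp ψ (-1) = OnePoint.infty := by simp [Fsp]
        rw [this] at h
        exact OnePoint.infty_ne_coe _ h
      have h2 : Fsp ψ z = ((fsp ψ z : ℂ) : OnePoint ℂ) := by simp [Fsp, hne]
      rw [h2] at h
      have h3 := OnePoint.coe_injective h
      obtain ⟨h4, h5, h6⟩ := exists_angle hz hne
      rw [h6, fsp_circle h4 h5, hγ0] at h3
      have h7 := exp_spiral_inj hψ h3
      by_contra hcon
      have h8 : arg z ≠ -(2 * ψ) := by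
        intro h9
        rw [h9] at h6
        exact hcon h6
      exact (Rf_gt' hψ0 hψ1 h4 h5 h8).ne' h7
    · rintro rfl
      have h2 : Fsp ψ (exp ((-(2 * ψ) : ℝ) * I)) =
          ((fsp ψ (exp ((-(2 * ψ) : ℝ) * I)) : ℂ) : OnePoint ℂ) := by
        unfold Fsp
        rw [if_neg b]
      rw [h2, fsp_circle (by linarith) (by linarith), hγ0]


theorem fsp_isSlitMap' {ψ β : ℝ} (hψ0 : -(Real.pi / 2) < ψ) (hψ1 : ψ < Real.pi / 2)
    (hβ : |ψ| ≤ β * Real.pi / 2) : IsSlitMap β (fsp ψ) (γsp ψ) := by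
  have hψ : 0 < Real.cos ψ := Real.cos_pos_of_mem_Ioo ⟨by linarith, hψ1⟩
  refine ⟨fsp_classS hψ, γsp_isSlitArc hψ, fsp_compl' hψ0 hψ1, ?_⟩
  intro t ht u hu
  exact (γsp_angle' hψ0 hψ1 ht hu).trans hβ

/-- Enlarging the angle enlarges the class. -/
theorem isSlitMap_mono {α β : ℝ} (h : α ≤ β) {f : ℂ → ℂ} {γ : ℝ → ℂ} (hf : IsSlitMap α f γ) :
    IsSlitMap β f γ := by
  refine ⟨hf.mem, hf.arc, hf.compl, fun t ht u hu => (hf.angle t ht u hu).trans ?_⟩
  have := Real.pi_pos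
  nlinarith

end Pool.Agent.Y999.TipRange
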