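import Pool.Agent.TH281.HB.Main

set_option autoImplicit false

namespace Pool.Agent.Y999.HolderSets

open Pool.Agent.TH281.HB Pool.Agent.H465R3

variable {Y : Type*} [NormedAddCommGroup Y] [NormedSpace ℝ Y]

/-- The gadget of the starting library together with the relation `U ∘ U ∘ U = U`. -/
def HG3 (X : Type*) [NormedAddCommGroup X] (α : ℝ) : Prop :=
  ∃ (U : X → X) (K M : ℝ), 1 ≤ K ∧ 1 ≤ M ∧
    (∀ n : ℕ, 1 ≤ n → ∀ a b, ‖U^[n] a - U^[n] b‖ ≤ K * ‖a - b‖ ^ α) ∧ (∀ a, ‖U a‖ ≤ M) ∧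
    (∀ a, U a ≠ a) ∧ (∀ η : ℝ, 0 < η → ∃ a, ‖a‖ ≤ M ∧ ‖a - U a‖ < η) ∧
    ∀ a, U (U (U a)) = U a

theorem hg3_prod (hY : ¬ FiniteDimensional ℝ Y) {α : ℝ} (hα : 0 < α) (hα1 : α < 1) :
    HG3 (Y × ℝ) α := by
  obtain ⟨R, hR1, hR2, hR3⟩ := exists_retr' hY
  have hR : SphereRetr R (max 1 CR) := by
    refine ⟨le_max_left _ _, fun y y' => (hR1 y y').trans ?_, hR2, hR3⟩
    gcongr
    exact le_max_right _ _
  obtain ⟨z, hz⟩ := Pool.Agent.TH554.J1152.exists_mazur hY
  obtain ⟨A, hn, hopen, hd⟩ := Pool.Agent.TH571.J1154.exists_family hz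
    (fun o n h => Pool.Agent.TH571.J1153.exists_arm hz o n h)
  set a := 1 - α with ha_def
  have ha : 0 < a := by linarith
  have ha1 : a < 1 := by linarith
  have haα : 1 - a = α := by rw [ha_def]; ring
  have hK0 : 0 ≤ Arm.KH a (max 1 CR) := by
    unfold Arm.KH
    have := Arm.KB_pos ha
    positivity
  have hglue : ∀ ε : ℝ, |ε| = 1 → ∀ v v' : Y × ℝ,
      ‖glued A a R ε v - glued A a R ε v'‖ ≤ 2 * Arm.KH a (max 1 CR) * ‖v - v'‖ ^ α := by
    intro ε hε
    refine Pool.Agent.TH444.J1155.glue (fun k => Prod.fst ⁻¹' (A k).reg)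
      (fun k => (hopen k).preimage continuous_fst)
      (fun k l hkl => (hd k l hkl).preimage _) (fun k => (A k).ret a R ε)
      (fun v => (ε • R v.1, 0)) ?_ _ α hK0 hα ?_ _ ?_ ?_
    · intro k v hv
      exact (A k).ret_off hR ha ha1 hv ε
    · intro k v v'
      have := (A k).ret_holder hR ha ha1 hε.le v v'
      rwa [haα] at this
    · intro k v hv
      exact glued_of_mem hd hv ε
    · intro v hv
      exact glued_of_not hv ε
  have hneg : |(-1:ℝ)| = 1 := by norm_num
  have hone : |(1:ℝ)| = 1 := by norm_num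
  have hiter : ∀ n : ℕ, 1 ≤ n → (∀ v, (glued A a R (-1))^[n] v = glued A a R (-1) v) ∨
      (∀ v, (glued A a R (-1))^[n] v = glued A a R 1 v) := by
    intro n hn
    induction n with
    | zero => omega
    | succ n ih =>
      rcases Nat.eq_zero_or_pos n with h | h
      · subst h; left; intro v; rfl
      · rcases ih h with h1 | h1
        · right; intro v
          rw [Function.iterate_succ_apply', h1, glued_comp hR ha ha1 hd hneg]
          norm_num
        · left; intro v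
          rw [Function.iterate_succ_apply', h1, glued_comp hR ha ha1 hd hone]
          norm_num
  refine ⟨glued A a R (-1), max 1 (2 * Arm.KH a (max 1 CR)), 258, le_max_left _ _, by norm_num,
    ?_, fun v => norm_glued_le hR ha ha1 hd hneg v, ?_, fun η hη => glued_disp hR ha hd hn hη, ?_⟩
  · intro n hn v v'
    have hpow : 0 ≤ ‖v - v'‖ ^ α := Real.rpow_nonneg (norm_nonneg _) _
    rcases hiter n hn with h | h
    · rw [h, h]
      refine (hglue _ hneg v v').trans ?_
      gcongr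
      exact le_max_right _ _
    · rw [h, h]
      refine (hglue _ hone v v').trans ?_
      gcongr
      exact le_max_right _ _
  · intro v hv
    have h1 := glued_comp (ε' := -1) hR ha ha1 hd hneg v
    rw [hv, hv] at h1
    apply glued_ne hR ha ha1 hd v
    rw [hv]
    nth_rewrite 1 [h1]
    norm_num
  · intro v
    rw [glued_comp hR ha ha1 hd hneg, glued_comp hR ha ha1 hd (by norm_num)]
    norm_num

theorem hg3_transfer {X Y : Type*} [NormedAddCommGroup X] [NormedSpace ℝ X]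
    [NormedAddCommGroup Y] [NormedSpace ℝ Y] {α : ℝ} (hα : 0 < α) (hα1 : α < 1)
    (h : HG3 Y α) (e : X ≃L[ℝ] Y) : HG3 X α := by
  obtain ⟨U, K, M, hK, hM, hlip, hbd, hfix, hdisp, hper⟩ := h
  set A := ‖(e : X →L[ℝ] Y)‖ with hA
  set B := ‖(e.symm : Y →L[ℝ] X)‖ with hB
  have hA0 : 0 ≤ A := norm_nonneg _
  have hB0 : 0 ≤ B := norm_nonneg _
  have hAα : 0 ≤ A ^ α := Real.rpow_nonneg hA0 _
  have hAe : ∀ x, ‖e x‖ ≤ A * ‖x‖ := fun x => (e : X →L[ℝ] Y).le_opNorm x
  have hBe : ∀ y, ‖e.symm y‖ ≤ B * ‖y‖ := fun y => (e.symm : Y →L[ℝ] X).le_opNorm y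
  have hit : ∀ n a, (fun x => e.symm (U (e x)))^[n] a = e.symm (U^[n] (e a)) := by
    intro n
    induction n with
    | zero => intro a; simp
    | succ n ih =>
      intro a
      rw [Function.iterate_succ_apply', ih, Function.iterate_succ_apply']
      simp
  refine ⟨fun x => e.symm (U (e x)), 1 + B * K * A ^ α, 1 + B * M, ?_, ?_, ?_, ?_, ?_, ?_, ?_⟩
  · have : 0 ≤ B * K * A ^ α := by positivity
    linarith
  · have : 0 ≤ B * M := by positivity
    linarith
  · intro n hn a b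
    rw [hit, hit, ← map_sub]
    refine (hBe _).trans ?_
    have h1 := hlip n hn (e a) (e b)
    have h2 := hAe (a - b)
    rw [map_sub] at h2
    have h3 := norm_nonneg (a - b)
    have h4 : ‖e a - e b‖ ^ α ≤ A ^ α * ‖a - b‖ ^ α := by
      rw [← Real.mul_rpow hA0 h3]
      exact Real.rpow_le_rpow (norm_nonneg _) h2 hα.le
    have h5 : 0 ≤ ‖a - b‖ ^ α := Real.rpow_nonneg h3 _
    calc B * ‖U^[n] (e a) - U^[n] (e b)‖ ≤ B * (K * (A ^ α * ‖a - b‖ ^ α)) := by
          gcongr
          exact h1.trans (by gcongr)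
      _ ≤ (1 + B * K * A ^ α) * ‖a - b‖ ^ α := by nlinarith
  · intro a
    refine (hBe _).trans ?_
    have := hbd (e a)
    nlinarith
  · intro a ha
    apply hfix (e a)
    have := congrArg e ha
    simpa using this
  · intro η hη
    obtain ⟨a, ha1, ha2⟩ := hdisp (η / (1 + B)) (by positivity)
    refine ⟨e.symm a, ?_, ?_⟩
    · refine (hBe _).trans ?_
      nlinarith
    · simp only [ContinuousLinearEquiv.apply_symm_apply]
      rw [← map_sub]
      refine lt_of_le_of_lt (hBe _) ?_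
      rw [lt_div_iff₀ (by positivity)] at ha2
      have := norm_nonneg (a - U a)
      nlinarith
  · intro a
    change e.symm (U (e (e.symm (U (e (e.symm (U (e a)))))))) = e.symm (U (e a))
    rw [ContinuousLinearEquiv.apply_symm_apply, ContinuousLinearEquiv.apply_symm_apply, hper]

theorem hg3_of_infinite {X : Type*} [NormedAddCommGroup X] [NormedSpace ℝ X]
    (hX : ¬ FiniteDimensional ℝ X) {α : ℝ} (hα : 0 < α) (hα1 : α < 1) : HG3 X α := by
  obtain ⟨Y, hY, ⟨e⟩⟩ := Pool.Agent.TH828.J1156.exists_hyperplane hX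
  exact hg3_transfer hα hα1 (hg3_prod hY hα hα1) e

/-- The maps on an arbitrary set with an interior point. -/
theorem exists_map {X : Type*} [NormedAddCommGroup X] [NormedSpace ℝ X]
    (hX : ¬ FiniteDimensional ℝ X) (S : Set X) (x₀ : X) (hx₀ : x₀ ∈ interior S)
    (α lam ρ : ℝ) (hα0 : 0 < α) (hα1 : α < 1) (hlam : 0 < lam) (hρ : 0 < ρ) :
    ∃ T : S → S,
      (∀ n : ℕ, 1 ≤ n → ∀ x y : S,
        ‖(T^[n] x : X) - (T^[n] y : X)‖ ≤ lam * ‖(x : X) - (y : X)‖ ^ α) ∧
      (∀ x, T (T (T x)) = T x) ∧ (∀ x, ‖(T x : X) - x₀‖ ≤ ρ) ∧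
      (∀ x, T x ≠ x) ∧ (⨅ x : S, ‖(x : X) - (T x : X)‖) = 0 := by
  obtain ⟨U, K, M, hK, hM, hlip, hbd, hfix, hdisp, hper⟩ := hg3_of_infinite hX hα0 hα1
  obtain ⟨r₀, hr₀, hball⟩ := Metric.isOpen_iff.1 isOpen_interior x₀ hx₀
  set r : ℝ := min (r₀ / 2) ρ with hr
  have hr0 : 0 < r := lt_min (by linarith) hρ
  have hrS : ∀ w : X, ‖w‖ ≤ r → x₀ + w ∈ S := by
    intro w hw
    apply interior_subset
    apply hball
    rw [mem_ball_iff_norm, add_sub_cancel_left]
    have : r ≤ r₀ / 2 := min_le_left _ _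
    linarith
  have hK0 : 0 < K := by linarith
  have hM0 : 0 < M := by linarith
  have hlK : 0 < lam / K := by positivity
  set d : ℝ := (lam / K) ^ (1 / (1 - α)) with hd
  have hd0 : 0 < d := Real.rpow_pos_of_pos hlK _
  have hdα : d ^ (1 - α) = lam / K := by
    rw [hd, ← Real.rpow_mul hlK.le]
    have : 1 / (1 - α) * (1 - α) = 1 := by
      have : (1 - α) ≠ 0 := by linarith
      field_simp
    rw [this, Real.rpow_one]
  set ε : ℝ := min (r / M) d with hε
  have hε0 : 0 < ε := lt_min (by positivity) hd0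
  have hεM : ε * M ≤ r := by
    calc ε * M ≤ r / M * M := by gcongr; exact min_le_left _ _
      _ = r := by field_simp
  have hεα : K * ε ^ (1 - α) ≤ lam := by
    have h1 : ε ^ (1 - α) ≤ d ^ (1 - α) :=
      Real.rpow_le_rpow hε0.le (min_le_right _ _) (by linarith)
    rw [hdα] at h1
    calc K * ε ^ (1 - α) ≤ K * (lam / K) := by gcongr
      _ = lam := by field_simp
  have hsm : ∀ w : X, ‖ε • U w‖ ≤ r := by
    intro w
    rw [norm_smul, Real.norm_eq_abs, abs_of_pos hε0]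
    have := hbd w
    nlinarith
  let T : S → S := fun x => ⟨x₀ + ε • U (ε⁻¹ • ((x : X) - x₀)), hrS _ (hsm _)⟩
  have hT : ∀ n (x : S), ((T^[n] x : S) : X) = x₀ + ε • U^[n] (ε⁻¹ • ((x : X) - x₀)) := by
    intro n
    induction n with
    | zero => intro x; simp [smul_smul, hε0.ne']
    | succ n ih =>
      intro x
      rw [Function.iterate_succ_apply', Function.iterate_succ_apply']
      change x₀ + ε • U (ε⁻¹ • (((T^[n] x : S) : X) - x₀)) = _
      rw [ih, add_sub_cancel_left, smul_smul, inv_mul_cancel₀ hε0.ne', one_smul]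
  refine ⟨T, ?_, ?_, ?_, ?_, ?_⟩
  · intro n hn x y
    rw [hT, hT, add_sub_add_left_eq_sub, ← smul_sub, norm_smul, Real.norm_eq_abs, abs_of_pos hε0]
    set q := ‖(x : X) - (y : X)‖ with hq
    have hq0 : 0 ≤ q := norm_nonneg _
    have h1 := hlip n hn (ε⁻¹ • ((x : X) - x₀)) (ε⁻¹ • ((y : X) - x₀))
    rw [← smul_sub, sub_sub_sub_cancel_right, norm_smul, Real.norm_eq_abs,
      abs_of_pos (inv_pos.2 hε0), ← hq, Real.mul_rpow (inv_pos.2 hε0).le hq0] at h1
    have h5 : 0 ≤ q ^ α := Real.rpow_nonneg hq0 _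
    have h6 : ε * ε⁻¹ ^ α = ε ^ (1 - α) := by
      rw [Real.inv_rpow hε0.le, Real.rpow_sub hε0, Real.rpow_one]
      rfl
    calc ε * ‖U^[n] (ε⁻¹ • ((x : X) - x₀)) - U^[n] (ε⁻¹ • ((y : X) - x₀))‖
        ≤ ε * (K * (ε⁻¹ ^ α * q ^ α)) := mul_le_mul_of_nonneg_left h1 hε0.le
      _ = (K * (ε * ε⁻¹ ^ α)) * q ^ α := by ring
      _ = (K * ε ^ (1 - α)) * q ^ α := by rw [h6]
      _ ≤ lam * q ^ α := by gcongr
  · intro x
    apply Subtype.ext
    have h3 := hT 3 x
    have h1 := hT 1 x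
    change ((T (T (T x)) : S) : X) = _ at h3
    change ((T x : S) : X) = _ at h1
    rw [h3, h1]
    congr 2
    exact hper _
  · intro x
    change ‖x₀ + ε • U (ε⁻¹ • ((x : X) - x₀)) - x₀‖ ≤ ρ
    rw [add_sub_cancel_left]
    exact (hsm _).trans (min_le_right _ _)
  · intro x hx
    have h1 : x₀ + ε • U (ε⁻¹ • ((x : X) - x₀)) = x := congrArg Subtype.val hx
    apply hfix (ε⁻¹ • ((x : X) - x₀))
    conv_rhs => rw [← h1]
    rw [add_sub_cancel_left, smul_smul, inv_mul_cancel₀ hε0.ne', one_smul]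
  · apply le_antisymm
    · refine le_of_forall_pos_le_add fun η hη => ?_
      obtain ⟨a, ha1, ha2⟩ := hdisp (η / ε) (by positivity)
      have hmem : x₀ + ε • a ∈ S := by
        apply hrS
        rw [norm_smul, Real.norm_eq_abs, abs_of_pos hε0]
        nlinarith
      have hle := ciInf_le (f := fun x : S => ‖(x : X) - (T x : X)‖)
        ⟨0, by rintro _ ⟨x, rfl⟩; exact norm_nonneg _⟩ ⟨x₀ + ε • a, hmem⟩
      refine hle.trans ?_
      change ‖x₀ + ε • a - (x₀ + ε • U (ε⁻¹ • (x₀ + ε • a - x₀)))‖ ≤ _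
      rw [add_sub_cancel_left, smul_smul, inv_mul_cancel₀ hε0.ne', one_smul,
        add_sub_add_left_eq_sub, ← smul_sub, norm_smul, Real.norm_eq_abs, abs_of_pos hε0]
      rw [lt_div_iff₀ hε0] at ha2
      linarith
    · have : Nonempty S := ⟨⟨x₀, interior_subset hx₀⟩⟩
      exact le_ciInf fun x => norm_nonneg _

/-- In finite dimension a continuous self-map of the unit ball with minimal displacement zero has a
fixed point. -/
theorem fixed_of_finite {X : Type*} [NormedAddCommGroup X] [NormedSpace ℝ X]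
    [FiniteDimensional ℝ X] (T : Metric.closedBall (0 : X) 1 → Metric.closedBall (0 : X) 1)
    (hT : Continuous T) (h0 : (⨅ x : Metric.closedBall (0 : X) 1, ‖(x : X) - (T x : X)‖) = 0) :
    ∃ x, T x = x := by
  have : ProperSpace X := FiniteDimensional.proper_real X
  have hc : CompactSpace (Metric.closedBall (0 : X) 1) :=
    isCompact_iff_compactSpace.1 (isCompact_closedBall 0 1)
  have hne : Nonempty (Metric.closedBall (0 : X) 1) := ⟨⟨0, by simp⟩⟩
  have hf : Continuous (fun x : Metric.closedBall (0 : X) 1 => ‖(x : X) - (T x : X)‖) := by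
    fun_prop
  obtain ⟨x, -, hx⟩ := isCompact_univ.exists_isMinOn Set.univ_nonempty hf.continuousOn
  have h1 : ‖(x : X) - (T x : X)‖ ≤ 0 := by
    rw [← h0]
    exact le_ciInf fun y => hx (Set.mem_univ y)
  refine ⟨x, Subtype.ext ?_⟩
  have h2 : (x : X) - (T x : X) = 0 := norm_le_zero_iff.1 h1
  exact (sub_eq_zero.1 h2).symm

end Pool.Agent.Y999.HolderSets
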